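import Pool.Agent.H.MP_8b7a64_al.Plane

/-!
# A finitely presented inverse monoid, uniformly hyperbolic, not tree-like, and without
hyperbolic planes
-/

namespace Pool.Agent.Results.MP_8b7a64_al.TruncatedHoroballs

open Pool.Agent.H.MP_8b7a64_al

/-- The trichotomy of elements used below. -/
lemma cases_elem (m : X) : m = model.z ∨ ∃ (K : Option ℕ) (u v : ℕ × ℤ), Ok K u.1 ∧ Ok K v.1 ∧
    m = model.N K u v := by
  rcases isNF_all m with h | ⟨K, u, v, hu, hv, h⟩
  · exact Or.inl h
  · exact Or.inr ⟨K, u, v, hu, hv, h⟩

/-- There is a finitely presented inverse monoid all of whose Schützenberger graphs are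
`δ`-hyperbolic for one `δ`, which is not tree-like, and none of whose Schützenberger graphs
contains a quasi-isometric image of the hyperbolic plane. -/
theorem result :
    ∃ (A : Type) (_ : Finite A) (R : Set (FreeMonoid (A × Bool) × FreeMonoid (A × Bool))),
      R.Finite ∧ IsInverseMonoid (PresInv A R) ∧
      (∃ δ : ℝ, ∀ m : PresInv A R, IsHyperbolic (schGraph R m) δ) ∧
      (¬ ∀ m : PresInv A R, QITree (schGraph R m)) ∧
      (∀ m : PresInv A R, ¬ ContainsQIPlane (schGraph R m)) := by
  refine ⟨Gen, inferInstance, rels, rels_finite, isInverseMonoid _, ⟨7, ?_⟩, ?_, ?_⟩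
  · intro m
    rcases cases_elem m with rfl | ⟨K, u, v, hu, hv, rfl⟩
    · intro x y z w
      rw [sch_zero x w, sch_zero y w, sch_zero z w]
      simp only [SimpleGraph.dist_self, Nat.cast_zero, add_zero, max_self]
      norm_num
    · exact hyperbolic_iso (schIso hu hv) (T_connected K) (T_hyperbolic K)
  · intro h
    have hu : Ok none ((0, 0) : ℕ × ℤ).1 := ok_none 0
    exact T_none_not_tree
      (qiTree_iso (schIso hu hu) (T_connected none) (h (model.N none (0, 0) (0, 0))))
  · intro m
    rcases cases_elem m with rfl | ⟨K, u, v, hu, hv, rfl⟩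
    · exact point_not_plane sch_zero
    · exact fun h => T_not_plane K (plane_iso (schIso hu hv) (T_connected K) h)

end Pool.Agent.Results.MP_8b7a64_al.TruncatedHoroballs
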